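import Pool.Agent.W295.PR.Stm

/-! Project PR (helper295), part PPN: normalisers of the connected group. -/

set_option autoImplicit false

namespace Pool.Agent.W906.PR.PPN

open Pool.Agent.W295.PR

section

variable {G : Type} [Group G] [TopologicalSpace G] [IsTopologicalGroup G] (N : Nil G) (D : ℕ)

lemma gpp_mem (e : ℤ) {u x v : G} (hu : u ∈ N.G0) (hx : x ∈ N.G0) (hv : v ∈ N.G0) :
    gpp N D e u x v ∈ PP N D := Subgroup.subset_closure ⟨e, u, x, v, hu, hx, hv, rfl⟩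

lemma cj_mul (e : ℤ) (f g : RR D → G) : cj N D e (f * g) = cj N D e f * cj N D e g := by
  funext q
  change N.a ^ (ev D e q) * (f (tau D e q) * g (tau D e q)) * (N.a ^ (ev D e q))⁻¹ =
    (N.a ^ (ev D e q) * f (tau D e q) * (N.a ^ (ev D e q))⁻¹) *
      (N.a ^ (ev D e q) * g (tau D e q) * (N.a ^ (ev D e q))⁻¹)
  group

lemma cj_one (e : ℤ) : cj N D e (1 : RR D → G) = 1 := by
  funext q
  change N.a ^ (ev D e q) * 1 * (N.a ^ (ev D e q))⁻¹ = 1
  group

lemma cj_inv (e : ℤ) (f : RR D → G) : cj N D e f⁻¹ = (cj N D e f)⁻¹ := by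
  rw [eq_inv_iff_mul_eq_one, ← cj_mul, inv_mul_cancel, cj_one]

/-- Induction for the group `𝒫` along a homomorphism. -/
lemma ind (F : (RR D → G) →* (RR D → G))
    (h : ∀ (e : ℤ) (u x v : G), u ∈ N.G0 → x ∈ N.G0 → v ∈ N.G0 → F (gpp N D e u x v) ∈ PP N D) :
    ∀ f ∈ PP N D, F f ∈ PP N D := by
  intro f hf
  have h1 : PP N D ≤ (PP N D).comap F := by
    unfold PP
    rw [Subgroup.closure_le]
    rintro _ ⟨e, u, x, v, hu, hx, hv, rfl⟩
    exact h e u x v hu hx hv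
  exact h1 hf

end

theorem main (h : S_EV) : S_PPn := by
  intro G _ _ _ N D
  have hnorm := N.normal
  refine ⟨?_, ?_, ?_, ?_, ?_, cj_mul N D, ?_⟩
  · intro e
    refine ind N D ⟨⟨cj N D e, cj_one N D e⟩, cj_mul N D e⟩ ?_
    intro e' u x v hu hx hv
    have h1 : cj N D e (gpp N D e' u x v) =
        gpp N D e 1 1 u * gpp N D (e + e') u x v * gpp N D e v 1 1 := by
      funext q
      obtain ⟨h2, -⟩ := h D e e' q q
      change N.a ^ (ev D e q) * ((u * N.a) ^ (ev D e' (tau D e q)) * x *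
          ((v * N.a) ^ (ev D e' (tau D e q)))⁻¹) * (N.a ^ (ev D e q))⁻¹ =
        ((1 * N.a) ^ (ev D e q) * 1 * ((u * N.a) ^ (ev D e q))⁻¹) *
          ((u * N.a) ^ (ev D (e + e') q) * x * ((v * N.a) ^ (ev D (e + e') q))⁻¹) *
          ((v * N.a) ^ (ev D e q) * 1 * ((1 * N.a) ^ (ev D e q))⁻¹)
      rw [h2, zpow_sub, zpow_sub, one_mul]
      have h3 : (u * N.a) ^ (ev D (e + e') q) * ((u * N.a) ^ (ev D e q))⁻¹ =
          ((u * N.a) ^ (ev D e q))⁻¹ * (u * N.a) ^ (ev D (e + e') q) := by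
        rw [← zpow_neg, ← zpow_add, ← zpow_add, add_comm]
      rw [h3]
      group
    change cj N D e (gpp N D e' u x v) ∈ PP N D
    rw [h1]
    exact mul_mem (mul_mem (gpp_mem N D _ (one_mem _) (one_mem _) hu) (gpp_mem N D _ hu hx hv))
      (gpp_mem N D _ hv (one_mem _) (one_mem _))
  · refine ind N D ⟨⟨fun f q => N.a * f q * N.a⁻¹, ?_⟩, ?_⟩ ?_
    · funext q
      change N.a * 1 * N.a⁻¹ = 1
      group
    · intro f g
      funext q
      change N.a * (f q * g q) * N.a⁻¹ = (N.a * f q * N.a⁻¹) * (N.a * g q * N.a⁻¹)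
      group
    intro e u x v hu hx hv
    have h1 : (fun q => N.a * gpp N D e u x v q * N.a⁻¹) =
        gpp N D e (N.a * u * N.a⁻¹) (N.a * x * N.a⁻¹) (N.a * v * N.a⁻¹) := by
      funext q
      have h2 : ∀ (w : G) (m : ℤ), (N.a * w * N.a⁻¹ * N.a) ^ m =
          N.a * (w * N.a) ^ m * N.a⁻¹ := by
        intro w m
        rw [← conj_zpow]
        congr 1
        group
      change N.a * ((u * N.a) ^ (ev D e q) * x * ((v * N.a) ^ (ev D e q))⁻¹) * N.a⁻¹ =
        (N.a * u * N.a⁻¹ * N.a) ^ (ev D e q) * (N.a * x * N.a⁻¹) *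
          ((N.a * v * N.a⁻¹ * N.a) ^ (ev D e q))⁻¹
      rw [h2, h2]
      group
    change (fun q => N.a * gpp N D e u x v q * N.a⁻¹) ∈ PP N D
    rw [h1]
    exact gpp_mem N D _ (hnorm.conj_mem _ hu _) (hnorm.conj_mem _ hx _) (hnorm.conj_mem _ hv _)
  · refine ind N D ⟨⟨fun f q => N.a⁻¹ * f q * N.a, ?_⟩, ?_⟩ ?_
    · funext q
      change N.a⁻¹ * 1 * N.a = 1
      group
    · intro f g
      funext q
      change N.a⁻¹ * (f q * g q) * N.a = (N.a⁻¹ * f q * N.a) * (N.a⁻¹ * g q * N.a)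
      group
    intro e u x v hu hx hv
    have h1 : (fun q => N.a⁻¹ * gpp N D e u x v q * N.a) =
        gpp N D e (N.a⁻¹ * u * N.a⁻¹⁻¹) (N.a⁻¹ * x * N.a⁻¹⁻¹) (N.a⁻¹ * v * N.a⁻¹⁻¹) := by
      funext q
      have h2 : ∀ (w : G) (m : ℤ), (N.a⁻¹ * w * N.a⁻¹⁻¹ * N.a) ^ m =
          N.a⁻¹ * (w * N.a) ^ m * N.a⁻¹⁻¹ := by
        intro w m
        rw [← conj_zpow]
        congr 1
        group
      change N.a⁻¹ * ((u * N.a) ^ (ev D e q) * x * ((v * N.a) ^ (ev D e q))⁻¹) * N.a =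
        (N.a⁻¹ * u * N.a⁻¹⁻¹ * N.a) ^ (ev D e q) * (N.a⁻¹ * x * N.a⁻¹⁻¹) *
          ((N.a⁻¹ * v * N.a⁻¹⁻¹ * N.a) ^ (ev D e q))⁻¹
      rw [h2, h2]
      group
    change (fun q => N.a⁻¹ * gpp N D e u x v q * N.a) ∈ PP N D
    rw [h1]
    exact gpp_mem N D _ (hnorm.conj_mem _ hu _) (hnorm.conj_mem _ hx _) (hnorm.conj_mem _ hv _)
  · intro r
    refine ind N D ⟨⟨fun f q => f (rho D r q), rfl⟩, fun f g => rfl⟩ ?_
    intro e u x v hu hx hv
    have h1 : (fun q => gpp N D e u x v (rho D r q)) = gpp N D (r * e) u x v := by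
      funext q
      obtain ⟨-, -, -, -, -, -, h2, -⟩ := h D e r q q
      unfold gpp
      rw [h2]
    change (fun q => gpp N D e u x v (rho D r q)) ∈ PP N D
    rw [h1]
    exact gpp_mem N D _ hu hx hv
  · intro f hf q
    have h1 : PP N D ≤ N.G0.comap (Pi.evalMonoidHom (fun _ : RR D => G) q) := by
      unfold PP
      rw [Subgroup.closure_le]
      rintro _ ⟨e, u, x, v, hu, hx, hv, rfl⟩
      change (u * N.a) ^ (ev D e q) * x * ((v * N.a) ^ (ev D e q))⁻¹ ∈ N.G0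
      rw [← QuotientGroup.eq_one_iff]
      have hu' : ((u : G) : G ⧸ N.G0) = 1 := (QuotientGroup.eq_one_iff u).mpr hu
      have hx' : ((x : G) : G ⧸ N.G0) = 1 := (QuotientGroup.eq_one_iff x).mpr hx
      have hv' : ((v : G) : G ⧸ N.G0) = 1 := (QuotientGroup.eq_one_iff v).mpr hv
      rw [QuotientGroup.mk_mul, QuotientGroup.mk_mul, QuotientGroup.mk_inv,
        QuotientGroup.mk_zpow, QuotientGroup.mk_zpow, QuotientGroup.mk_mul, QuotientGroup.mk_mul,
        hu', hx', hv', one_mul, mul_one, mul_inv_cancel]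
    exact h1 hf
  · intro e f g
    funext q
    obtain ⟨h2, h3, -⟩ := h D e f q q
    obtain ⟨-, h4, -⟩ := h D f e q q
    change N.a ^ (ev D e q) * (N.a ^ (ev D f (tau D e q)) * g (tau D f (tau D e q)) *
        (N.a ^ (ev D f (tau D e q)))⁻¹) * (N.a ^ (ev D e q))⁻¹ =
      N.a ^ (ev D (e + f) q) * g (tau D (e + f) q) * (N.a ^ (ev D (e + f) q))⁻¹
    rw [h2, h4, add_comm f e]
    have h5 : N.a ^ (ev D (e + f) q) = N.a ^ (ev D e q) * N.a ^ (ev D (e + f) q - ev D e q) := by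
      rw [← zpow_add]
      congr 1
      ring
    rw [h5]
    group

end Pool.Agent.W906.PR.PPN
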